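import Pool.Agent.PLG.Stmts

/-! Row THK of squad PLG: the thick case. -/

set_option autoImplicit false

namespace Pool.Agent.PLG.H38

open Module Pool.Agent.PLG

theorem lz_eq_lp (G : AddSubgroup ℂ) (t : ℝ) : lz G ⟨1, t⟩ = lp G t := by
  ext x
  rw [mem_lz, mem_lp]
  constructor
  · rintro ⟨h1, r, rfl⟩
    refine ⟨h1, ?_⟩
    simp only [Complex.mul_im, Complex.mul_re, Complex.ofReal_re, Complex.ofReal_im, mul_one,
      zero_mul, add_zero, sub_zero]
    ring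
  · rintro ⟨h1, h2⟩
    refine ⟨h1, x.re, ?_⟩
    apply Complex.ext
    · simp
    · simp only [Complex.mul_im, Complex.ofReal_re, Complex.ofReal_im, mul_one, add_zero]
      rw [h2]
      ring

theorem bs_le_sp {E : Type} [NormedAddCommGroup E] {f : ℂ →+ E} {G : AddSubgroup ℂ}
    (hD : Dsc f G) (r : ℝ) : bs f G r ≤ sp G := by
  refine Submodule.span_mono fun x hx => ?_
  exact ((mem_bl hD).1 hx).1

theorem thk (hCOV : CovStmt) (hDIM : DimStmt) (hBLF : BlfStmt) (hBCK : BckStmt)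
    (hTPL : TplStmt) (hCST : CstStmt) : ThkStmt := by
  classical
  intro d
  obtain ⟨κ, hκ, hdim⟩ := hDIM d
  obtain ⟨c, C, hcst⟩ := hCST d κ hκ
  refine ⟨c, C, ?_⟩
  intro E _ _ f G Θ L j hD hfin hrk hL hj hlines hcnt hsp
  have hL0 : (0 : ℝ) < L := by linarith
  have hLC : (1 : ℝ) ≤ L ^ C := one_le_pow₀ (by linarith)
  have hj0 : (0 : ℝ) < j := by linarith
  set τ : ℝ := 1 / L ^ c with hτ
  have hτ0 : 0 < τ := by rw [hτ]; positivity
  set B : ℝ := 12 * 13 ^ d * L with hB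
  obtain ⟨s, hs⟩ : ∃ s : ℕ, s = ⌈5184 * B⌉₊ + 5 := ⟨_, rfl⟩
  have hB1 : 1 ≤ B := by
    have h1 : (1 : ℝ) ≤ 13 ^ d := one_le_pow₀ (by norm_num)
    have h2 : (1 : ℝ) * 2 ≤ 13 ^ d * L := mul_le_mul h1 hL (by norm_num) (by positivity)
    rw [hB, mul_assoc]
    linarith
  have hs5 : 5184 * B + 5 ≤ (s : ℝ) := by
    rw [hs]
    push_cast
    linarith [Nat.le_ceil (5184 * B)]
  have hs0 : (0 : ℝ) < s := by linarith
  have hs1 : 1 ≤ s := by
    have : (0 : ℕ) < s := by exact_mod_cast hs0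
    omega
  -- the constants with `e = 0`
  obtain ⟨c1, -, c3, -, c5, -⟩ := hcst L B (256 * (9 * B * s) ^ 4) _ 0 s _ hL (Nat.zero_le d) hB hs
    rfl rfl rfl
  obtain ⟨hj3, hj9⟩ := c3 j hj
  have hcnt1 : (1 : ℝ) ≤ cnt f G 1 := by
    exact_mod_cast one_le_cnt hD (by norm_num : (0 : ℝ) ≤ 1)
  have hΘ0 : 0 < Θ.card := by
    rcases Nat.eq_zero_or_pos Θ.card with h | h
    · exfalso
      rw [h] at hcnt
      simp only [Nat.cast_zero, mul_zero, zero_mul] at hcnt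
      linarith
    · exact h
  by_cases hA : L * (Θ.card : ℝ) ≤ L ^ C
  · -- few slopes
    obtain ⟨t, ht⟩ := Finset.card_pos.1 hΘ0
    refine ⟨⟨1, t⟩, ?_, ?_⟩
    · intro h
      have := congrArg Complex.re h
      simp at this
    · rw [lz_eq_lp]
      have h1 := hlines t ht
      have h2 : j ^ 2 ≤ (cnt f (lp G t) 1 : ℝ) ^ 2 := pow_le_pow_left₀ hj0.le h1 2
      calc (cnt f G 1 : ℝ) ≤ L * Θ.card * j ^ 2 := hcnt
        _ ≤ L ^ C * (cnt f (lp G t) 1 : ℝ) ^ 2 :=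
          mul_le_mul hA h2 (by positivity) (by positivity)
  rw [not_le] at hA
  have h12 : (3 * (s : ℝ) + 12) < Θ.card := by
    have h1 : L * (3 * (s : ℝ) + 12) < L * Θ.card := lt_of_le_of_lt c5 hA
    exact lt_of_mul_lt_mul_left h1 hL0.le
  have h12' : 12 ≤ Θ.card := by
    have : (12 : ℝ) ≤ Θ.card := by linarith
    exact_mod_cast this
  obtain ⟨e, hde, Θ', hΘ', hcard, hrank⟩ := hdim E f G Θ L j τ hD hfin hrk hL hτ0 c1 hsp h12' hj0
    hj9 hlines hcnt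
  have hcard' : (Θ.card : ℝ) ≤ 3 * Θ'.card := by exact_mod_cast hcard
  have hsΘ' : (s : ℝ) ≤ Θ'.card := by linarith
  have hsΘ'' : s ≤ Θ'.card := by exact_mod_cast hsΘ'
  have hΘ'0 : (0 : ℝ) < Θ'.card := by linarith
  have hed : e ≤ d := by omega
  obtain ⟨K, hK⟩ : ∃ K : ℝ, K = 256 * (9 * B * s) ^ 4 := ⟨_, rfl⟩
  obtain ⟨A, hAA⟩ : ∃ A : ℕ, A = ⌈(3 * ((e : ℝ) + 1) * K ^ (e * e)) ^ e * K ^ (e * e)⌉₊ :=
    ⟨_, rfl⟩
  obtain ⟨T, hT⟩ : ∃ T : ℝ, T = ((K ^ e + 1) * (e * (2 * A + 1) ^ (e + 1))) ^ e := ⟨_, rfl⟩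
  obtain ⟨-, d2, -, d4, -, d6⟩ := hcst L B K T e s A hL hed hB hs hK hAA hT
  have hK1 : 1 ≤ K := by
    have h1 : (1 : ℝ) ≤ 9 * B * s := by
      have h2 : (1 : ℝ) * 1 ≤ B * s := mul_le_mul hB1 (by linarith) (by norm_num) (by linarith)
      rw [mul_assoc]
      linarith
    have h3 : (1 : ℝ) ≤ (9 * B * s) ^ 4 := one_le_pow₀ h1
    rw [hK]
    linarith
  have hT0 : 0 ≤ T := by
    rw [hT]
    have : 0 ≤ K := by linarith
    positivity
  -- `e ≥ 1`
  have he : 1 ≤ e := by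
    rcases Nat.eq_zero_or_pos e with h | h
    · exfalso
      have hd0 : finrank ℚ (sp G) = 0 := by rw [hrk, hde, h]
      have hbot : sp G = ⊥ := Submodule.finrank_eq_zero.1 hd0
      obtain ⟨t, ht⟩ := Finset.card_pos.1 (show 0 < Θ'.card by omega)
      have h1 := hlines t (hΘ' ht)
      have h2 : bl f (lp G t) 1 ⊆ {0} := by
        intro x hx
        have h3 : x ∈ sp G := le_sp ((mem_bl (hD.lp t)).1 hx).1.1
        rw [hbot, Submodule.mem_bot] at h3
        rw [h3]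
        exact Finset.mem_singleton_self 0
      have h4 : cnt f (lp G t) 1 ≤ 1 := by
        unfold cnt
        have := Finset.card_le_card h2
        simpa using this
      have h5 : (cnt f (lp G t) 1 : ℝ) ≤ 1 := by exact_mod_cast h4
      linarith
    · exact h
  -- the covering estimate
  have hcov : (cnt f G 6 : ℝ) ≤ 13 ^ d * L * Θ.card * j ^ 2 := by
    have h1 := hCOV E f G 6 1 d hD (by norm_num) (by norm_num)
      (by rw [← hrk]; exact Submodule.finrank_mono (bs_le_sp hD 6))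
    have h2 : (1 + 2 * 6 / 1 : ℝ) = 13 := by norm_num
    rw [h2] at h1
    calc (cnt f G 6 : ℝ) ≤ 13 ^ d * cnt f G 1 := h1
      _ ≤ 13 ^ d * (L * Θ.card * j ^ 2) := mul_le_mul_of_nonneg_left hcnt (by positivity)
      _ = 13 ^ d * L * Θ.card * j ^ 2 := by ring
  obtain ⟨F, hF1, hF2, hF3⟩ := hBLF E f G Θ' s _ hD hs1 hsΘ'' hcov
  have hF3' : (Θ'.card : ℝ) ≤ 4 * s * F.card := by exact_mod_cast hF3
  have hρ0 : 0 ≤ κ * L * τ := by positivity
  have hρ1 : κ * L * τ ≤ 1 := by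
    have h1 : (1 : ℝ) * (κ * L * τ) ≤ 8 * ((d : ℝ) + 1) * (κ * L * τ) := by
      refine mul_le_mul_of_nonneg_right ?_ hρ0
      have : (0 : ℝ) ≤ d := Nat.cast_nonneg d
      linarith
    linarith
  have hblk : ∀ W ∈ F, Blk f G W e (κ * L * τ) j B := by
    intro W hW
    obtain ⟨hWs, hWc, a, b, hab, hcone⟩ := hF1 W hW
    refine ⟨hD, hfin, by rw [hrk, hde], he, hρ1, hj3, hB1, ?_, ?_, ?_, a, b, hab, ?_⟩
    · exact fun t ht => hlines t (hΘ' (hWs ht))
    · exact fun t ht => hrank t (hWs ht)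
    · rw [hWc]
      exact hs5
    · rw [hWc]
      have h1 : ((cone f G 6 a b).card : ℝ) * Θ'.card ≤ B * s * j ^ 2 * Θ'.card := by
        calc ((cone f G 6 a b).card : ℝ) * Θ'.card
            ≤ 4 * s * (13 ^ d * L * Θ.card * j ^ 2) := hcone
          _ = (4 * s * (13 ^ d * L * j ^ 2)) * Θ.card := by ring
          _ ≤ (4 * s * (13 ^ d * L * j ^ 2)) * (3 * Θ'.card) :=
            mul_le_mul_of_nonneg_left hcard' (by positivity)
          _ = B * s * j ^ 2 * Θ'.card := by rw [hB]; ring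
      exact le_of_mul_le_mul_right h1 hΘ'0
  have hout : ∀ W ∈ F, ∃ x : ℂ, (∃ t ∈ W, x ∈ lp G t) ∧ x ≠ 0 ∧ ‖f x‖ ^ e * j ≤ 3 ^ e ∧
      Out f G e A (K ^ e) x := by
    intro W hW
    have hWc := (hF1 W hW).2.1
    obtain ⟨t, ht, x, hx, h1, h2, h3⟩ := hBCK E f G W e A (κ * L * τ) j B K (hblk W hW)
      (by rw [hWc]; exact hK) d2 (by rw [hAA]; exact Nat.le_ceil _)
    exact ⟨x, ⟨t, ht, hx⟩, h1, h2, h3⟩
  choose! x hx1 hx2 hx3 hx4 using hout
  have hinj : Set.InjOn x F := by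
    intro W hW W' hW' hxx
    by_contra hne
    obtain ⟨t, ht, hxt⟩ := hx1 W hW
    obtain ⟨t', ht', hxt'⟩ := hx1 W' hW'
    have hdis := hF2 W hW W' hW' hne
    have htt : t ≠ t' := by
      intro h
      rw [← h] at ht'
      exact (Finset.disjoint_left.1 hdis ht) ht'
    rw [← hxx] at hxt'
    exact hx2 W hW (eq_zero_of_slopes htt hxt.2 hxt'.2)
  have hXc : (F.image x).card = F.card := Finset.card_image_of_injOn hinj
  have hmain : L * (Θ.card : ℝ) ≤ L * (12 * s * (F.image x).card) := by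
    rw [hXc]
    refine mul_le_mul_of_nonneg_left ?_ hL0.le
    calc (Θ.card : ℝ) ≤ 3 * Θ'.card := hcard'
      _ ≤ 3 * (4 * s * F.card) := by linarith
      _ = 12 * s * F.card := by ring
  rcases hTPL E f G e A (F.image x) (K ^ e) j T hD hfin (by rw [hrk, hde]) he
    (one_le_pow₀ hK1) hj0 hT (by
      intro y hy
      obtain ⟨W, hW, rfl⟩ := Finset.mem_image.1 hy
      obtain ⟨t, ht, hxt⟩ := hx1 W hW
      exact ⟨hxt.1, hx3 W hW, hx4 W hW⟩) with h | ⟨z, hz, h⟩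
  · exfalso
    have h1 : L * (12 * s * ((F.image x).card : ℝ)) ≤ L * (12 * s * (T * 2 ^ (2 * e))) :=
      mul_le_mul_of_nonneg_left (mul_le_mul_of_nonneg_left h (by positivity)) hL0.le
    linarith
  · refine ⟨z, hz, ?_⟩
    calc (cnt f G 1 : ℝ) ≤ L * Θ.card * j ^ 2 := hcnt
      _ ≤ L * (12 * s * (F.image x).card) * j ^ 2 :=
        mul_le_mul_of_nonneg_right hmain (by positivity)
      _ = L * (12 * s) * (((F.image x).card : ℝ) * j ^ 2) := by ring
      _ ≤ L * (12 * s) * (T * (12 * e * K ^ e) ^ (2 * e) * (cnt f (lz G z) 1 : ℝ) ^ 2) :=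
        mul_le_mul_of_nonneg_left h (by positivity)
      _ = L * (12 * s * (T * (12 * e * K ^ e) ^ (2 * e))) * (cnt f (lz G z) 1 : ℝ) ^ 2 := by ring
      _ ≤ L ^ C * (cnt f (lz G z) 1 : ℝ) ^ 2 :=
        mul_le_mul_of_nonneg_right d6 (by positivity)

end Pool.Agent.PLG.H38
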